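import Pool.Agent.W2helper45.UC.Stm

/-!
# Project UC, piece IND
-/

set_option autoImplicit false

namespace Pool.Agent.W4helper65.UC

open MvPolynomial Pool.Agent.W2helper45.UC
open Pool.Agent.X153.CH (flats rk chains chowSeries)

theorem p_ind : P_FUN → P_DEG → P_DIA → P_TRI → P_MAP → P_IND := by
  classical
  intro hFUN hDEG hDIA hTRI hMAP n r i₀ k h1 hrn
  obtain ⟨-, -, φ, hφ⟩ := hMAP n r i₀ h1 hrn
  obtain ⟨lam, hlam, hker⟩ := hFUN n r h1 hrn
  have hmon : ∀ m : Ex n, φ (mon (xc n r i₀) m) =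
      Ideal.Quotient.mk (kI n r) (monomial m (1 : ℚ)) := by
    intro m
    rw [mon, map_finsuppProd, MvPolynomial.monomial_eq, map_mul, map_finsuppProd]
    simp only [map_pow, hφ, map_one, one_mul]
  rw [linearIndependent_iff']
  intro s g hsum
  by_contra hcon
  push Not at hcon
  obtain ⟨i, hi, hgi⟩ := hcon
  obtain ⟨m', hm', hmax⟩ := (s.filter fun m => g m ≠ 0).exists_max_image
    (fun m => toLex (lv m.1)) ⟨i, Finset.mem_filter.2 ⟨hi, hgi⟩⟩
  obtain ⟨hm's, hgm'⟩ := Finset.mem_filter.1 hm'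
  -- the relation in the polynomial ring
  have hp : (∑ m ∈ s, g m • monomial m.1 (1 : ℚ)) ∈ kI n r := by
    rw [← Ideal.Quotient.eq_zero_iff_mem, map_sum]
    have h2 := congrArg φ hsum
    rw [map_sum, map_zero] at h2
    rw [← h2]
    apply Finset.sum_congr rfl
    intro m _
    have h3 : φ (g m • mon (xc n r i₀) m.1) = g m • φ (mon (xc n r i₀) m.1) := map_smul φ _ _
    rw [h3, hmon]
    rfl
  -- the dual exponent
  obtain ⟨hd1, hd2⟩ := hDEG n r m'.1 h1 hrn m'.2.1
  set u : Ex n := du m'.1 - Finsupp.single Finset.univ (n - r) with hu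
  have hu' : u + Finsupp.single Finset.univ (n - r) = du m'.1 := by
    rw [hu]
    apply tsub_add_cancel_of_le
    intro F
    by_cases hF : F = Finset.univ
    · subst hF
      rw [Finsupp.single_eq_same]
      exact hd2
    · rw [Finsupp.single_eq_of_ne hF]
      exact Nat.zero_le _
  have hudeg : u.degree + (n - r) = (du m'.1).degree := by
    rw [← hu', map_add, Finsupp.degree_single]
  have hk := m'.2.2
  have hp2 : (∑ m ∈ s, g m • monomial m.1 (1 : ℚ)) * monomial u (1 : ℚ) ∈ kI n r :=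
    Ideal.mul_mem_right _ _ hp
  have h3 := hker _ hp2
  rw [Finset.sum_mul, map_sum] at h3
  have h4 : ∀ m ∈ s, lam ((g m • monomial m.1 (1 : ℚ)) * monomial u (1 : ℚ)) =
      g m * Df (m.1 + du m'.1) := by
    intro m _
    rw [smul_mul_assoc, map_smul, monomial_mul, one_mul, smul_eq_mul]
    congr 1
    rw [hlam, add_assoc, hu']
    rw [map_add, m.2.2]
    omega
  rw [Finset.sum_congr rfl h4] at h3
  rw [Finset.sum_eq_single m'] at h3
  · rcases mul_eq_zero.1 h3 with h5 | h5
    · exact hgm' h5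
    · exact hDIA n r m'.1 h1 hrn m'.2.1 h5
  · intro m hm hne
    by_cases hgm : g m = 0
    · rw [hgm, zero_mul]
    · by_contra h5
      have h6 : Df (m.1 + du m'.1) ≠ 0 := right_ne_zero_of_mul h5
      rcases hTRI n r m.1 m'.1 h1 hrn m.2.1 m'.2.1 (m.2.2.trans m'.2.2.symm) h6 with h7 | h7
      · exact hne (Subtype.ext h7)
      · obtain ⟨t, ht1, ht2⟩ := h7
        have h8 := hmax m (Finset.mem_filter.2 ⟨hm, hgm⟩)
        apply absurd h8
        rw [not_le]
        exact ⟨t, fun j hj => (ht1 j hj).symm, ht2⟩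
  · intro h5
    exact absurd hm's h5

end Pool.Agent.W4helper65.UC
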